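import Pool.Agent.H3.BES.Targets

/-! row BIN of the board clu_modules (MP_c59857_nt): pigeonhole into intervals -/

set_option autoImplicit false

open Finset Pool.Agent.H3.BES

namespace Pool.Agent.H54.BES

open Classical in
theorem clu_BIN : T_BIN := by
  intro M w de eta h hh hle hM
  have heta : 0 < eta := hh.trans_le hle
  set n : ℕ := ⌊2 * eta / h⌋₊ + 1 with hn
  set J : ℕ → ℕ := fun q => ⌊(de q + eta) / h⌋₊ with hJ
  have hmem : ∀ q ∈ M, J q ∈ Finset.range n := by
    intro q hq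
    rw [Finset.mem_range, hn, Nat.lt_succ_iff]
    apply Nat.floor_mono
    have h1 := abs_le.1 (hM q hq).2
    apply div_le_div_of_nonneg_right _ hh.le
    linarith
  have hsum : ∑ j ∈ Finset.range n, ∑ q ∈ M.filter (fun q => J q = j), w q = ∑ q ∈ M, w q :=
    Finset.sum_fiberwise_of_maps_to hmem w
  have hS : 0 ≤ ∑ q ∈ M, w q := Finset.sum_nonneg fun q hq => (hM q hq).1
  have hnr : (n : ℝ) * (h / (5 * eta)) ≤ 1 := by
    have h1 : ((⌊2 * eta / h⌋₊ : ℕ) : ℝ) ≤ 2 * eta / h := Nat.floor_le (by positivity)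
    have h2 : (n : ℝ) ≤ 2 * eta / h + 1 := by rw [hn]; push_cast; linarith
    have h3 : (1 : ℝ) ≤ eta / h := by rw [le_div_iff₀ hh]; linarith
    have h4 : (n : ℝ) ≤ 3 * (eta / h) := by
      have : 2 * eta / h = 2 * (eta / h) := by ring
      rw [this] at h2
      linarith
    calc (n : ℝ) * (h / (5 * eta)) ≤ 3 * (eta / h) * (h / (5 * eta)) :=
          mul_le_mul_of_nonneg_right h4 (by positivity)
      _ = 3 / 5 := by field_simp
      _ ≤ 1 := by norm_num
  have hn0 : (Finset.range n).Nonempty := ⟨0, by rw [Finset.mem_range]; omega⟩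
  obtain ⟨j, _, hj⟩ : ∃ j ∈ Finset.range n, (∑ q ∈ M, w q) * (h / (5 * eta)) ≤
      ∑ q ∈ M.filter (fun q => J q = j), w q := by
    by_contra hcon
    push Not at hcon
    have h1 := Finset.sum_lt_sum_of_nonempty hn0 hcon
    rw [hsum, Finset.sum_const, Finset.card_range, nsmul_eq_mul] at h1
    have h2 : (n : ℝ) * ((∑ q ∈ M, w q) * (h / (5 * eta))) ≤ ∑ q ∈ M, w q := by
      calc (n : ℝ) * ((∑ q ∈ M, w q) * (h / (5 * eta))) =
            (∑ q ∈ M, w q) * ((n : ℝ) * (h / (5 * eta))) := by ring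
        _ ≤ (∑ q ∈ M, w q) * 1 := mul_le_mul_of_nonneg_left hnr hS
        _ = _ := mul_one _
    linarith
  refine ⟨-eta + j * h, hj.trans ?_⟩
  apply Finset.sum_le_sum_of_subset_of_nonneg
  · intro q hq
    rw [Finset.mem_filter] at hq ⊢
    refine ⟨hq.1, ?_⟩
    have h1 := abs_le.1 (hM q hq.1).2
    have h2 : 0 ≤ (de q + eta) / h := div_nonneg (by linarith) hh.le
    have h3 := Nat.floor_le h2
    have h4 := Nat.lt_floor_add_one ((de q + eta) / h)
    have h5 : ⌊(de q + eta) / h⌋₊ = j := hq.2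
    rw [h5] at h3 h4
    rw [le_div_iff₀ hh] at h3
    rw [div_lt_iff₀ hh] at h4
    rw [abs_le]
    constructor <;> nlinarith
  · intro q hq _
    exact (hM q (Finset.mem_filter.1 hq).1).1

end Pool.Agent.H54.BES
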